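import Mathlib

/-!
# Almost everywhere convergence from block inequalities
-/

set_option autoImplicit false

open Finset Filter Topology MeasureTheory

namespace Pool.Agent.Zk59.PE

variable {X : Type} [MeasurableSpace X] {μ : Measure X} [IsProbabilityMeasure μ]

/-- the maximum over the block `[a, a + b]` -/
noncomputable def blk (R : ℕ → X → ℝ) (a b : ℕ) (x : X) : ℝ :=
  (Icc a (a + b)).sup' (nonempty_Icc.2 (by omega)) fun t => R t x

omit [MeasurableSpace X] in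
lemma le_blk (R : ℕ → X → ℝ) {a b t : ℕ} (h1 : a ≤ t) (h2 : t ≤ a + b) (x : X) :
    R t x ≤ blk R a b x :=
  Finset.le_sup' (fun t => R t x) (mem_Icc.2 ⟨h1, h2⟩)

omit [MeasurableSpace X] in
lemma blk_attained (R : ℕ → X → ℝ) (a b : ℕ) (x : X) :
    ∃ t ∈ Icc a (a + b), blk R a b x = R t x := by
  obtain ⟨t, ht, h⟩ := Finset.exists_mem_eq_sup' (s := Icc a (a + b)) (nonempty_Icc.2 (by omega))
    fun t => R t x
  exact ⟨t, ht, h⟩

lemma blk_meas {R : ℕ → X → ℝ} (hR : ∀ t, Measurable (R t)) (a b : ℕ) :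
    Measurable (blk R a b) := by
  have h := Finset.measurable_sup' (s := Icc a (a + b)) (nonempty_Icc.2 (by omega))
    (f := fun t => R t) (fun t _ => hR t)
  convert h using 1
  ext x
  simp [blk, Finset.sup'_apply]

omit [MeasurableSpace X] in
lemma blk_mono (R : ℕ → X → ℝ) (a : ℕ) (x : X) : Monotone fun b => blk R a b x := by
  intro b c hbc
  obtain ⟨t, ht, h⟩ := blk_attained R a b x
  rw [mem_Icc] at ht
  show blk R a b x ≤ blk R a c x
  rw [h]
  exact le_blk R ht.1 (ht.2.trans (by omega)) x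

lemma core {R : ℕ → X → ℝ} (hR : ∀ t, Measurable (R t)) (hR0 : ∀ t x, 0 ≤ R t x)
    (hR2 : ∀ t x, R t x ≤ 2) {ε K : ℝ} {t₀ : ℕ} (hε : 0 ≤ ε)
    (H : ∀ (J : ℕ) (T : Fin J → Finset ℕ), (∀ j, (T j).Nonempty) → (∀ j, ∀ t ∈ T j, t₀ ≤ t) →
      (∀ i j, i ≠ j → Disjoint (T i) (T j)) →
      ∀ G : Fin J → X → ℝ, (∀ j, Measurable (G j)) → (∀ j x, 0 ≤ G j x) →
      (∀ j x, ∃ t ∈ T j, G j x ≤ R t x) →
      ∑ j, ∫ x, G j x ^ 2 ∂μ ≤ K + ε * J) :
    ∫⁻ x, limsup (fun t => ENNReal.ofReal (R t x ^ 2)) atTop ∂μ ≤ ENNReal.ofReal ε := by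
  by_contra hcon
  rw [not_le, ENNReal.lt_iff_exists_real_btwn] at hcon
  obtain ⟨c, hc0, hc1, hc2⟩ := hcon
  have hεc : ε < c := (ENNReal.ofReal_lt_ofReal_iff_of_nonneg hε).1 hc1
  have hG0 : ∀ a b x, 0 ≤ blk R a b x := fun a b x => by
    obtain ⟨t, -, h⟩ := blk_attained R a b x
    rw [h]
    exact hR0 t x
  have hG2 : ∀ a b x, blk R a b x ≤ 2 := fun a b x => by
    obtain ⟨t, -, h⟩ := blk_attained R a b x
    rw [h]
    exact hR2 t x
  have hint : ∀ a b, Integrable (fun x => blk R a b x ^ 2) μ := fun a b => by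
    refine Integrable.of_bound ((blk_meas hR a b).pow_const 2).aestronglyMeasurable 4
      (ae_of_all _ fun x => ?_)
    rw [Real.norm_eq_abs, abs_of_nonneg (sq_nonneg _)]
    nlinarith [hG0 a b x, hG2 a b x]
  have hstep : ∀ a : ℕ, ∃ b : ℕ, c < ∫ x, blk R a b x ^ 2 ∂μ := by
    intro a
    have h1 : ∫⁻ x, limsup (fun t => ENNReal.ofReal (R t x ^ 2)) atTop ∂μ ≤
        ∫⁻ x, ⨆ b, ENNReal.ofReal (blk R a b x ^ 2) ∂μ := by
      refine lintegral_mono fun x => ?_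
      rw [Filter.limsup_eq_iInf_iSup_of_nat']
      refine (iInf_le _ a).trans (iSup_le fun i => ?_)
      refine le_trans (ENNReal.ofReal_le_ofReal ?_)
        (le_iSup (fun b => ENNReal.ofReal (blk R a b x ^ 2)) i)
      have h2 : R (i + a) x ≤ blk R a i x := le_blk R (by omega) (by omega) x
      nlinarith [hR0 (i + a) x]
    have h3 : ∫⁻ x, ⨆ b, ENNReal.ofReal (blk R a b x ^ 2) ∂μ =
        ⨆ b, ∫⁻ x, ENNReal.ofReal (blk R a b x ^ 2) ∂μ := by
      refine lintegral_iSup (fun b => ((blk_meas hR a b).pow_const 2).ennreal_ofReal) ?_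
      intro b b' hb x
      refine ENNReal.ofReal_le_ofReal ?_
      have h4 : blk R a b x ≤ blk R a b' x := blk_mono R a x hb
      nlinarith [hG0 a b x]
    rw [h3] at h1
    obtain ⟨b, hb⟩ := lt_iSup_iff.1 (hc2.trans_le h1)
    refine ⟨b, ?_⟩
    rw [← ofReal_integral_eq_lintegral_ofReal (hint a b) (ae_of_all _ fun x => sq_nonneg _)] at hb
    exact (ENNReal.ofReal_lt_ofReal_iff_of_nonneg hc0).1 hb
  choose b hb using hstep
  obtain ⟨τ, hτ0, hτ⟩ : ∃ τ : ℕ → ℕ, τ 0 = t₀ ∧ ∀ j, τ (j + 1) = τ j + b (τ j) + 1 :=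
    ⟨fun j => Nat.rec t₀ (fun _ s => s + b s + 1) j, rfl, fun _ => rfl⟩
  have hmono : Monotone τ := monotone_nat_of_le_succ fun j => by rw [hτ]; omega
  have hJ : ∀ J : ℕ, J * c ≤ K + ε * J := by
    intro J
    have h := H J (fun j => Icc (τ j) (τ j + b (τ j))) (fun j => nonempty_Icc.2 (by omega))
      (fun j t ht => by
        have h1 := hmono (Nat.zero_le (j : ℕ))
        rw [hτ0] at h1
        exact h1.trans (mem_Icc.1 ht).1)
      (fun i j hij => by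
        rw [Finset.disjoint_left]
        intro t h1 h2
        rw [mem_Icc] at h1 h2
        have hij' : (i : ℕ) ≠ (j : ℕ) := fun h => hij (Fin.ext h)
        rcases Nat.lt_or_gt_of_ne hij' with h3 | h3
        · have h4 := hmono (Nat.succ_le_of_lt h3)
          rw [Nat.succ_eq_add_one, hτ] at h4
          omega
        · have h4 := hmono (Nat.succ_le_of_lt h3)
          rw [Nat.succ_eq_add_one, hτ] at h4
          omega)
      (fun j => blk R (τ j) (b (τ j))) (fun j => blk_meas hR _ _) (fun j x => hG0 _ _ x)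
      (fun j x => by
        obtain ⟨t, ht, h⟩ := blk_attained R (τ j) (b (τ j)) x
        exact ⟨t, ht, h.le⟩)
    refine le_trans ?_ h
    have h5 : ∑ _j : Fin J, c ≤ ∑ j : Fin J, ∫ x, blk R (τ j) (b (τ j)) x ^ 2 ∂μ :=
      Finset.sum_le_sum fun j _ => (hb (τ j)).le
    simpa using h5
  obtain ⟨J, hJ1⟩ := exists_nat_gt (K / (c - ε))
  rw [div_lt_iff₀ (by linarith)] at hJ1
  have := hJ J
  nlinarith

theorem ab (α : ℕ → X → ℂ) (hα : ∀ t, Measurable (α t)) (hα1 : ∀ t x, ‖α t x‖ ≤ 1)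
    (H : ∀ ε : ℝ, 0 < ε → ∃ (σ : ℕ → X → ℂ) (t₀ : ℕ) (K : ℝ), (∀ t, Measurable (σ t)) ∧
    (∀ t x, ‖σ t x‖ ≤ 1) ∧ (∀ᵐ x ∂μ, ∃ L, Tendsto (fun t => σ t x) atTop (𝓝 L)) ∧
    ∀ (J : ℕ) (T : Fin J → Finset ℕ), (∀ j, (T j).Nonempty) → (∀ j, ∀ t ∈ T j, t₀ ≤ t) →
      (∀ i j, i ≠ j → Disjoint (T i) (T j)) →
      ∀ G : Fin J → X → ℝ, (∀ j, Measurable (G j)) → (∀ j x, 0 ≤ G j x) →
      (∀ j x, ∃ t ∈ T j, G j x ≤ ‖α t x - σ t x‖) →
      ∑ j, ∫ x, G j x ^ 2 ∂μ ≤ K + ε * J) :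
    ∀ᵐ x ∂μ, ∃ L, Tendsto (fun t => α t x) atTop (𝓝 L) := by
  have H' := fun n : ℕ => H (1 / ((n : ℝ) + 1)) (by positivity)
  choose σ t₀ K hσ hσ1 hconv hblk using H'
  have hm : ∀ n t, Measurable fun x => ‖α t x - σ n t x‖ := fun n t =>
    ((hα t).sub (hσ n t)).norm
  have hlim : ∀ n, ∫⁻ x, limsup (fun t => ENNReal.ofReal (‖α t x - σ n t x‖ ^ 2)) atTop ∂μ ≤
      ENNReal.ofReal (1 / ((n : ℝ) + 1)) := fun n =>
    core (R := fun t x => ‖α t x - σ n t x‖) (hm n) (fun t x => norm_nonneg _)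
      (fun t x => (norm_sub_le _ _).trans (by linarith [hα1 t x, hσ1 n t x])) (by positivity)
      (hblk n)
  have hmL : ∀ n, Measurable fun x =>
      limsup (fun t => ENNReal.ofReal (‖α t x - σ n t x‖ ^ 2)) atTop := fun n =>
    Measurable.limsup fun t => ((hm n t).pow_const 2).ennreal_ofReal
  have hzero : ∫⁻ x, ⨅ n, limsup (fun t => ENNReal.ofReal (‖α t x - σ n t x‖ ^ 2)) atTop ∂μ = 0 := by
    refine le_antisymm ?_ bot_le
    have h1 : ∀ n : ℕ, ∫⁻ x, ⨅ n, limsup (fun t => ENNReal.ofReal (‖α t x - σ n t x‖ ^ 2)) atTop ∂μ ≤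
        ENNReal.ofReal (1 / ((n : ℝ) + 1)) := fun n =>
      (lintegral_mono fun x => iInf_le _ n).trans (hlim n)
    have h2 : Tendsto (fun n : ℕ => ENNReal.ofReal (1 / ((n : ℝ) + 1))) atTop (𝓝 0) := by
      have := ENNReal.tendsto_ofReal (tendsto_one_div_add_atTop_nhds_zero_nat (𝕜 := ℝ))
      simpa using this
    exact ge_of_tendsto' h2 h1
  have hae := (lintegral_eq_zero_iff (Measurable.iInf hmL)).1 hzero
  filter_upwards [hae, ae_all_iff.2 hconv] with x hx hc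
  simp only [Pi.zero_apply] at hx
  refine cauchySeq_tendsto_of_complete ?_
  rw [Metric.cauchySeq_iff']
  intro δ hδ
  have h1 : (⨅ n, limsup (fun t => ENNReal.ofReal (‖α t x - σ n t x‖ ^ 2)) atTop) <
      ENNReal.ofReal ((δ / 4) ^ 2) := by
    rw [hx]
    exact ENNReal.ofReal_pos.2 (by positivity)
  obtain ⟨n, hn⟩ := iInf_lt_iff.1 h1
  have h2 : ∀ᶠ t in atTop, ENNReal.ofReal (‖α t x - σ n t x‖ ^ 2) < ENNReal.ofReal ((δ / 4) ^ 2) :=
    Filter.eventually_lt_of_limsup_lt hn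
  obtain ⟨L, hL⟩ := hc n
  have h3 : ∀ᶠ t in atTop, dist (σ n t x) L < δ / 4 := Metric.tendsto_nhds.1 hL _ (by positivity)
  obtain ⟨N, hN⟩ := eventually_atTop.1 (h2.and h3)
  have h4 : ∀ t ≥ N, dist (α t x) L < δ / 2 := by
    intro t ht
    obtain ⟨h5, h6⟩ := hN t ht
    have h7 : ‖α t x - σ n t x‖ < δ / 4 := by
      have h8 := (ENNReal.ofReal_lt_ofReal_iff_of_nonneg (sq_nonneg _)).1 h5
      exact lt_of_pow_lt_pow_left₀ 2 (by positivity) h8
    calc dist (α t x) L ≤ dist (α t x) (σ n t x) + dist (σ n t x) L := dist_triangle _ _ _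
      _ < δ / 4 + δ / 4 := by rw [dist_eq_norm (α t x)]; exact add_lt_add h7 h6
      _ = δ / 2 := by ring
  refine ⟨N, fun t ht => ?_⟩
  calc dist (α t x) (α N x) ≤ dist (α t x) L + dist (α N x) L := dist_triangle_right _ _ _
    _ < δ / 2 + δ / 2 := add_lt_add (h4 t ht) (h4 N le_rfl)
    _ = δ := by ring

end Pool.Agent.Zk59.PE
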