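import Pool.Agent.Zk89.PE.Defs
import Pool.Agent.Zk59.PE.ABcore

set_option autoImplicit false

open Finset Filter Topology MeasureTheory

namespace Pool.Agent.Zk59.PE

theorem thm : Pool.Agent.Zk89.PE.S_AB := by
  intro X _ μ _ α hα hα1 H
  exact ab α hα hα1 H

end Pool.Agent.Zk59.PE
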