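import Pool.Agent.W761.Box.Core

/-!
# Gaussian actions of abelian groups: exponentials
-/

set_option autoImplicit false
set_option linter.unusedSectionVars false

open Filter Topology MeasureTheory ProbabilityTheory
open scoped NNReal ENNReal

noncomputable section

namespace Pool.Agent.Zk59.PE

open Pool.Agent.W761.Box (bxc bxc_bound)
open Pool.Agent.W761.Gauss (GaussSpace ex ex_add ex_sum norm_ex meas_ex q q_comp q_smul Adm
  ext_of_finite_char)

variable {G : Type} [CommGroup G] {k : ℕ}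

/-- The shift by `g`. -/
def shg (g : G) : Equiv.Perm (G → ℝ) where
  toFun ω a := ω (a * g)
  invFun ω a := ω (a * g⁻¹)
  left_inv ω := by
    funext a
    simp
  right_inv ω := by
    funext a
    simp

/-- The action of `G` by shifts. -/
def shG (G : Type) [CommGroup G] : G →* Equiv.Perm (G → ℝ) where
  toFun := shg
  map_one' := by
    ext ω a
    show ω (a * 1) = ω a
    rw [mul_one]
  map_mul' g g' := by
    ext ω a
    show ω (a * (g * g')) = ω (a * g * g')
    rw [mul_assoc]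

/-- The averages along `W` converge for all actions of `G`. -/
def GoodW (W : (Fin k → ℕ) → G) : Prop :=
  ∀ {Ω : Type} [MeasurableSpace Ω] {P : Measure Ω} [IsProbabilityMeasure P]
    {Ψ : G →* Equiv.Perm Ω}, (∀ g, MeasurePreserving (Ψ g) P P) → ∀ F : Ω → ℂ, Measurable F →
    (∃ C : ℝ, ∀ ω, ‖F ω‖ ≤ C) →
    ∀ᵐ ω ∂P, ∃ L, Tendsto (fun N => bxc k N fun m => F (Ψ (W m) ω)) atTop (𝓝 L)

theorem pg_fieldG {W : (Fin k → ℕ) → G} (hW : GoodW W) {P : Measure (G → ℝ)}
    [IsProbabilityMeasure P] (hP : ∀ g : G, P.map (shg g) = P) :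
    ∀ᵐ ω ∂P, ∃ L : ℂ, Tendsto (fun N => bxc k N fun m => ex (ω (W m))) atTop (𝓝 L) := by
  have hm : ∀ g : G, Measurable (shg g) := fun g =>
    measurable_pi_lambda _ fun n => measurable_pi_apply _
  have h1 := hW (Ψ := shG G) (P := P) (fun g => ⟨hm g, hP g⟩) (fun ω => ex (ω 1))
    (meas_ex.comp (measurable_pi_apply 1)) ⟨1, fun ω => (norm_ex _).le⟩
  filter_upwards [h1] with ω hω
  have hit : ∀ m, (shG G (W m) ω) 1 = ω (W m) := fun m => by
    show ω (1 * W m) = _
    rw [one_mul]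
  simpa only [hit] using hω

variable {X : Type*} [MeasurableSpace X] {μ : Measure X} {H : Submodule ℝ (X → ℝ)}
variable {I : Type*} [Fintype I]

/-- The auxiliary process. -/
def proc (ξ : G → X → ℝ) (u : I → G → X → ℝ) (n : G) (p : X × (I → X)) : ℝ :=
  ξ n p.1 + ∑ i, u i n (p.2 i)

theorem proc_comb (ξ : G → X → ℝ) (u : I → G → X → ℝ)
    (s : Finset G) (t : G → ℝ) (p : X × (I → X)) :
    ∑ n ∈ s, t n * proc ξ u n p = (∑ n ∈ s, t n • ξ n) p.1 +
      ∑ i, (∑ n ∈ s, t n • u i n) (p.2 i) := by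
  simp only [proc, Finset.sum_apply, Pi.smul_apply, smul_eq_mul, mul_add, Finset.sum_add_distrib,
    Finset.mul_sum]
  congr 1
  rw [Finset.sum_comm]

theorem meas_proc {ξ : G → X → ℝ} {u : I → G → X → ℝ}
    (hξ : ∀ n, Measurable (ξ n)) (hu : ∀ i n, Measurable (u i n)) (n : G) :
    Measurable (proc ξ u n) := by
  apply Measurable.add ((hξ n).comp measurable_fst)
  apply Finset.measurable_fun_sum
  intro i _
  exact (hu i n).comp ((measurable_pi_apply i).comp measurable_snd)

/-- The auxiliary process is stationary. -/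
theorem stationary [IsProbabilityMeasure μ] (hH : GaussSpace μ H) {ξ : G → X → ℝ}
    {u : I → G → X → ℝ} (hξ : ∀ n, ξ n ∈ H) (hu : ∀ i n, u i n ∈ H) (v : G)
    (hst : ∀ (s : Finset G) (t : G → ℝ),
      q μ (∑ n ∈ s, t n • ξ (n * v)) + ∑ i, q μ (∑ n ∈ s, t n • u i (n * v)) =
      q μ (∑ n ∈ s, t n • ξ n) + ∑ i, q μ (∑ n ∈ s, t n • u i n)) :
    ((μ.prod (Measure.pi fun _ : I => μ)).map (fun p n => proc ξ u n p)).map (shg v) =
      (μ.prod (Measure.pi fun _ : I => μ)).map (fun p n => proc ξ u n p) := by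
  have hξm : ∀ n, Measurable (ξ n) := fun n => hH.meas _ (hξ n)
  have hum : ∀ i n, Measurable (u i n) := fun i n => hH.meas _ (hu i n)
  have hpm : Measurable fun (p : X × (I → X)) (n : G) => proc ξ u n p :=
    measurable_pi_lambda _ fun n => meas_proc hξm hum n
  have hm : Measurable (shg v : (G → ℝ) → (G → ℝ)) :=
    measurable_pi_lambda _ fun n => measurable_pi_apply _
  rw [Measure.map_map hm hpm]
  have hP1 : IsProbabilityMeasure ((μ.prod (Measure.pi fun _ : I => μ)).map
      (fun p n => proc ξ u n p)) := Measure.isProbabilityMeasure_map hpm.aemeasurable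
  have hP2 : IsProbabilityMeasure ((μ.prod (Measure.pi fun _ : I => μ)).map
      (shg v ∘ fun p n => proc ξ u n p)) :=
    Measure.isProbabilityMeasure_map (hm.comp hpm).aemeasurable
  apply ext_of_finite_char
  intro s t
  have hc : ∀ ν : Measure (G → ℝ), AEStronglyMeasurable (fun ω : G → ℝ =>
      Complex.exp ((∑ i ∈ s, t i * ω i : ℝ) * Complex.I)) ν := by
    intro ν
    have : Measurable fun ω : G → ℝ => ex (∑ i ∈ s, t i * ω i) := by
      apply meas_ex.comp
      exact Finset.measurable_fun_sum _ fun i _ => (measurable_pi_apply i).const_mul _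
    exact this.aestronglyMeasurable
  rw [integral_map (hm.comp hpm).aemeasurable (hc _), integral_map hpm.aemeasurable (hc _)]
  have e1 := hH.int_ex_prod (I := I) (a := ∑ n ∈ s, t n • ξ n) (b := fun i => ∑ n ∈ s, t n • u i n)
    (H.sum_mem fun n _ => H.smul_mem _ (hξ n)) (fun i => H.sum_mem fun n _ => H.smul_mem _ (hu i n))
  have e2 := hH.int_ex_prod (I := I) (a := ∑ n ∈ s, t n • ξ (n * v))
    (b := fun i => ∑ n ∈ s, t n • u i (n * v))
    (H.sum_mem fun n _ => H.smul_mem _ (hξ _)) (fun i => H.sum_mem fun n _ => H.smul_mem _ (hu i _))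
  rw [hst, ← e1] at e2
  calc _ = ∫ p : X × (I → X), ex ((∑ n ∈ s, t n • ξ (n * v)) p.1 +
        ∑ i, (∑ n ∈ s, t n • u i (n * v)) (p.2 i)) ∂(μ.prod (Measure.pi fun _ => μ)) := by
        apply integral_congr_ae
        refine Eventually.of_forall fun p => ?_
        have := proc_comb (fun n => ξ (n * v)) (fun i n => u i (n * v)) s t p
        exact congrArg ex this
    _ = _ := e2
    _ = _ := by
        apply integral_congr_ae
        refine Eventually.of_forall fun p => ?_
        have := proc_comb ξ u s t p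
        exact congrArg ex this.symm

/-- **Core statement.** -/
theorem coreG [IsProbabilityMeasure μ] (hH : GaussSpace μ H) {W : (Fin k → ℕ) → G}
    (hW : GoodW W) {ξ : G → X → ℝ} {u : I → G → X → ℝ} {v : I → X → ℝ}
    (hξ : ∀ n, ξ n ∈ H) (hu : ∀ i n, u i n ∈ H) (hv : ∀ i, v i ∈ H)
    (hst : ∀ (g : G) (s : Finset G) (t : G → ℝ),
      q μ (∑ n ∈ s, t n • ξ (n * g)) + ∑ i, q μ (∑ n ∈ s, t n • u i (n * g)) =
      q μ (∑ n ∈ s, t n • ξ n) + ∑ i, q μ (∑ n ∈ s, t n • u i n))
    {Q₀ : ℝ} (hQ : ∀ n, ∑ i, q μ (u i n + v i) = Q₀) :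
    ∀ᵐ x ∂μ, ∃ L : ℂ, Tendsto (fun N => bxc k N fun n => ex (ξ (W n) x)) atTop (𝓝 L) := by
  have hξm : ∀ n, Measurable (ξ n) := fun n => hH.meas _ (hξ n)
  have hum : ∀ i n, Measurable (u i n) := fun i n => hH.meas _ (hu i n)
  have hvm : ∀ i, Measurable (v i) := fun i => hH.meas _ (hv i)
  have hpm : Measurable fun (p : X × (I → X)) (n : G) => proc ξ u n p :=
    measurable_pi_lambda _ fun n => meas_proc hξm hum n
  have hP1 : IsProbabilityMeasure ((μ.prod (Measure.pi fun _ : I => μ)).map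
      (fun p n => proc ξ u n p)) := Measure.isProbabilityMeasure_map hpm.aemeasurable
  have hB := pg_fieldG hW fun g => stationary hH hξ hu g (hst g)
  have hB' := ae_of_ae_map hpm.aemeasurable hB
  have hB'' := Measure.ae_ae_of_ae_prod hB'
  filter_upwards [hB''] with x hx
  set ν : Measure (I → X) := Measure.pi fun _ => μ with hν
  let F : (Fin k → ℕ) → (I → X) → ℂ := fun N ω =>
    bxc k N (fun n => ex (proc ξ u (W n) (x, ω))) * ex (∑ i, v i (ω i))
  have hterm : ∀ n, Measurable fun ω : I → X => ex (proc ξ u n (x, ω)) := fun n =>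
    meas_ex.comp ((meas_proc hξm hum n).comp measurable_prodMk_left)
  have hvs : Measurable fun ω : I → X => ex (∑ i, v i (ω i)) := by
    apply meas_ex.comp
    exact Finset.measurable_fun_sum _ fun i _ => (hvm i).comp (measurable_pi_apply i)
  have hFm : ∀ N, AEStronglyMeasurable (F N) ν := by
    intro N
    apply Measurable.aestronglyMeasurable
    refine Measurable.mul ?_ hvs
    unfold bxc
    exact ((Finset.measurable_fun_sum _ fun n _ => hterm _).const_mul _)
  have hFb : ∀ N, ∀ᵐ ω ∂ν, ‖F N ω‖ ≤ (fun _ => (1 : ℝ)) ω := by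
    intro N
    refine Eventually.of_forall fun ω => ?_
    show ‖bxc k N (fun n => ex (proc ξ u (W n) (x, ω))) * ex (∑ i, v i (ω i))‖ ≤ 1
    rw [norm_mul, norm_ex, mul_one]
    exact bxc_bound zero_le_one fun n => (norm_ex _).le
  have hlim : ∀ᵐ ω ∂ν, Tendsto (fun N => F N ω) atTop
      (𝓝 (limUnder atTop (fun N => F N ω))) := by
    filter_upwards [hx] with ω hω
    apply tendsto_nhds_limUnder
    obtain ⟨L, hL⟩ := hω
    exact ⟨L * ex (∑ i, v i (ω i)), hL.mul_const _⟩
  have hD := tendsto_integral_filter_of_dominated_convergence (l := atTop) (fun _ => (1 : ℝ))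
    (Eventually.of_forall hFm) (Eventually.of_forall hFb) (integrable_const _) hlim
  have hint : ∀ N, ∫ ω, F N ω ∂ν = Complex.exp ((-Q₀ / 2 : ℝ) : ℂ) *
      bxc k N (fun n => ex (ξ (W n) x)) := by
    intro N
    have hsplit : ∀ n ω, ex (proc ξ u n (x, ω)) * ex (∑ i, v i (ω i)) =
        ex (ξ n x) * ex (∑ i, (u i n + v i) (ω i)) := by
      intro n ω
      rw [proc, ex_add, mul_assoc, ← ex_add, ← Finset.sum_add_distrib]
      rfl
    have h1 : ∀ ω, F N ω = (∏ j, (N j : ℂ))⁻¹ * ∑ n ∈ Fintype.piFinset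
        (fun j => Finset.range (N j)), ex (ξ (W n) x) * ex (∑ i, (u i (W n) + v i) (ω i)) := by
      intro ω
      show bxc k N (fun n => ex (proc ξ u (W n) (x, ω))) * ex (∑ i, v i (ω i)) = _
      rw [bxc, mul_assoc, Finset.sum_mul]
      congr 1
      exact Finset.sum_congr rfl fun n _ => hsplit _ ω
    simp only [h1]
    rw [integral_const_mul, integral_finsetSum]
    · have h2 : ∀ n, ∫ ω, ex (ξ (W n) x) * ex (∑ i, (u i (W n) + v i) (ω i)) ∂ν =
          ex (ξ (W n) x) * Complex.exp ((-Q₀ / 2 : ℝ) : ℂ) := by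
        intro n
        rw [integral_const_mul, hH.int_ex_pi fun i => H.add_mem (hu i (W n)) (hv i), hQ (W n)]
      rw [Finset.sum_congr rfl fun n _ => h2 n, ← Finset.sum_mul, bxc]
      ring
    · intro n _
      apply Integrable.const_mul
      refine Integrable.mono' (integrable_const (1 : ℝ)) ?_ (Eventually.of_forall fun ω => ?_)
      · apply Measurable.aestronglyMeasurable
        apply meas_ex.comp
        exact Finset.measurable_fun_sum _ fun i _ =>
          ((hum i (W n)).add (hvm i)).comp (measurable_pi_apply i)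
      · rw [norm_ex]
  simp only [hint] at hD
  have hne : Complex.exp ((-Q₀ / 2 : ℝ) : ℂ) ≠ 0 := Complex.exp_ne_zero _
  refine ⟨(Complex.exp ((-Q₀ / 2 : ℝ) : ℂ))⁻¹ * _, (hD.const_mul
    (Complex.exp ((-Q₀ / 2 : ℝ) : ℂ))⁻¹).congr fun N => ?_⟩
  rw [← mul_assoc, inv_mul_cancel₀ hne, one_mul]

/-- composition with the action -/
theorem comp_mul {T : G → Equiv.Perm X} (hT : ∀ a b, T (a * b) = T a * T b) (h : X → ℝ) (g : G)
    (s : Finset G) (t : G → ℝ) :
    (∑ n ∈ s, t n • (h ∘ T (n * g))) = (∑ n ∈ s, t n • (h ∘ T n)) ∘ T g := by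
  ext x
  simp only [Finset.sum_apply, Pi.smul_apply, Function.comp_apply]
  apply Finset.sum_congr rfl
  intro n _
  rw [hT, Equiv.Perm.mul_apply]

variable {J : Type*} [Fintype J]

/-- **Convergence for exponentials.** -/
theorem conv_expG [IsProbabilityMeasure μ] (hH : GaussSpace μ H) {W : (Fin k → ℕ) → G}
    (hW : GoodW W) {S : J → G →* Equiv.Perm X} (hS : ∀ j g, Adm μ H (S j g))
    (hc : ∀ i j g g', Commute (S i g) (S j g'))
    {h : J → X → ℝ} (hh : ∀ j, h j ∈ H) :
    ∀ᵐ x ∂μ, ∃ L : ℂ, Tendsto (fun N => bxc k N fun m =>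
      ex (∑ j, h j (S j (W m) x))) atTop (𝓝 L) := by
  set c : ℝ := Real.sqrt 2⁻¹ with hcdef
  have hc2 : c ^ 2 = 2⁻¹ := Real.sq_sqrt (by norm_num)
  let ξ : G → X → ℝ := fun n => ∑ j, h j ∘ S j n
  let V : J → J → G → Equiv.Perm X := fun j k g => (S k g)⁻¹ * S j g
  have hVm : ∀ j k a b, V j k (a * b) = V j k a * V j k b := by
    intro j k a b
    show (S k (a * b))⁻¹ * S j (a * b) = (S k a)⁻¹ * S j a * ((S k b)⁻¹ * S j b)
    have h1 : Commute (S j a) ((S k b)⁻¹) := (hc j k a b).inv_right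
    have h2 : Commute (S k b)⁻¹ (S k a)⁻¹ := ((hc k k b a).inv_left).inv_right
    rw [map_mul, map_mul, mul_inv_rev, h2.eq]
    calc (S k a)⁻¹ * (S k b)⁻¹ * (S j a * S j b) =
        (S k a)⁻¹ * ((S k b)⁻¹ * S j a) * S j b := by group
      _ = (S k a)⁻¹ * (S j a * (S k b)⁻¹) * S j b := by rw [h1.eq]
      _ = (S k a)⁻¹ * S j a * ((S k b)⁻¹ * S j b) := by group
  have hSm : ∀ j a b, S j (a * b) = S j a * S j b := fun j a b => map_mul _ _ _
  let u : (J × J) ⊕ (J × J) → G → X → ℝ := fun i n =>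
    Sum.elim (fun p : J × J => c • (h p.1 ∘ S p.1 n - h p.2 ∘ S p.2 n))
      (fun p : J × J => c • (h p.1 ∘ V p.1 p.2 n)) i
  let v : (J × J) ⊕ (J × J) → X → ℝ := Sum.elim (fun _ => 0) (fun p : J × J => c • h p.2)
  have hV : ∀ j k g, Adm μ H (V j k g) := fun j k g => (hS k g).inv.mul (hS j g)
  have hξ : ∀ n, ξ n ∈ H := fun n => H.sum_mem fun j _ => (hS j n).st _ (hh j)
  have hu : ∀ i n, u i n ∈ H := by
    intro i n
    rcases i with p | p
    · exact H.smul_mem _ (H.sub_mem ((hS _ _).st _ (hh _)) ((hS _ _).st _ (hh _)))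
    · exact H.smul_mem _ ((hV _ _ _).st _ (hh _))
  have hv : ∀ i, v i ∈ H := by
    intro i
    rcases i with p | p
    · exact H.zero_mem
    · exact H.smul_mem _ (hh _)
  have hcore := coreG (I := (J × J) ⊕ (J × J)) hH hW hξ hu hv
    (Q₀ := ∑ j, ∑ k, (q μ (h j) + q μ (h k))) ?_ ?_
  · filter_upwards [hcore] with x hx
    obtain ⟨L, hL⟩ := hx
    refine ⟨L, hL.congr fun N => ?_⟩
    congr 1
    funext n
    show ex ((∑ j, h j ∘ S j (W n)) x) = _
    rw [Finset.sum_apply]
    rfl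
  · intro g s t
    let A : J → X → ℝ := fun j => ∑ n ∈ s, t n • (h j ∘ S j n)
    let A' : J → X → ℝ := fun j => ∑ n ∈ s, t n • (h j ∘ S j (n * g))
    let B : J → J → X → ℝ := fun j k => ∑ n ∈ s, t n • (h j ∘ V j k n)
    let B' : J → J → X → ℝ := fun j k => ∑ n ∈ s, t n • (h j ∘ V j k (n * g))
    have hA : ∀ j, A j ∈ H := fun j => H.sum_mem fun n _ =>
      H.smul_mem _ ((hS j n).st _ (hh j))
    have hA' : ∀ j, A' j ∈ H := fun j => H.sum_mem fun n _ =>
      H.smul_mem _ ((hS j _).st _ (hh j))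
    have hB : ∀ j k, B j k ∈ H := fun j k => H.sum_mem fun n _ =>
      H.smul_mem _ ((hV j k n).st _ (hh j))
    have hAA : ∀ j, q μ (A' j) = q μ (A j) := by
      intro j
      have : A' j = A j ∘ S j g := comp_mul (hSm j) _ _ _ _
      rw [this, q_comp (hS j g).mp (hH.meas _ (hA j))]
    have hBB : ∀ j k, q μ (B' j k) = q μ (B j k) := by
      intro j k
      have : B' j k = B j k ∘ V j k g := comp_mul (hVm j k) _ _ _ _
      rw [this, q_comp (hV j k g).mp (hH.meas _ (hB j k))]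
    have e1 : ∑ n ∈ s, t n • ξ n = ∑ j, A j := by
      show ∑ n ∈ s, t n • (∑ j, h j ∘ S j n) = _
      simp only [Finset.smul_sum]
      rw [Finset.sum_comm]
    have e1' : ∑ n ∈ s, t n • ξ (n * g) = ∑ j, A' j := by
      show ∑ n ∈ s, t n • (∑ j, h j ∘ S j (n * g)) = _
      simp only [Finset.smul_sum]
      rw [Finset.sum_comm]
    have e2 : ∀ p : J × J, ∑ n ∈ s, t n • u (Sum.inl p) n = c • (A p.1 - A p.2) := by
      intro p
      show ∑ n ∈ s, t n • (c • (h p.1 ∘ S p.1 n - h p.2 ∘ S p.2 n)) = _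
      rw [← Finset.sum_sub_distrib, Finset.smul_sum]
      apply Finset.sum_congr rfl
      intro n _
      rw [smul_comm, smul_sub]
    have e2' : ∀ p : J × J, ∑ n ∈ s, t n • u (Sum.inl p) (n * g) = c • (A' p.1 - A' p.2) := by
      intro p
      show ∑ n ∈ s, t n • (c • (h p.1 ∘ S p.1 (n * g) - h p.2 ∘ S p.2 (n * g))) = _
      rw [← Finset.sum_sub_distrib, Finset.smul_sum]
      apply Finset.sum_congr rfl
      intro n _
      rw [smul_comm, smul_sub]
    have e3 : ∀ p : J × J, ∑ n ∈ s, t n • u (Sum.inr p) n = c • B p.1 p.2 := by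
      intro p
      show ∑ n ∈ s, t n • (c • (h p.1 ∘ V p.1 p.2 n)) = _
      rw [Finset.smul_sum]
      apply Finset.sum_congr rfl
      intro n _
      rw [smul_comm]
    have e3' : ∀ p : J × J, ∑ n ∈ s, t n • u (Sum.inr p) (n * g) = c • B' p.1 p.2 := by
      intro p
      show ∑ n ∈ s, t n • (c • (h p.1 ∘ V p.1 p.2 (n * g))) = _
      rw [Finset.smul_sum]
      apply Finset.sum_congr rfl
      intro n _
      rw [smul_comm]
    rw [Fintype.sum_sum_type, Fintype.sum_sum_type]
    simp only [e1, e1', e2, e2', e3, e3', q_smul, hc2]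
    rw [Fintype.sum_prod_type, Fintype.sum_prod_type, Fintype.sum_prod_type,
      Fintype.sum_prod_type]
    simp only [hBB]
    have i1 := hH.q_identity hA
    have i2 := hH.q_identity hA'
    simp only [hAA] at i2
    linarith
  · intro n
    rw [Fintype.sum_sum_type]
    have f1 : ∀ p : J × J, q μ (u (Sum.inl p) n + v (Sum.inl p)) =
        2⁻¹ * q μ (h p.1 ∘ S p.1 n - h p.2 ∘ S p.2 n) := by
      intro p
      show q μ (c • (h p.1 ∘ S p.1 n - h p.2 ∘ S p.2 n) + 0) = _
      rw [add_zero, q_smul, hc2]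
    have f2 : ∀ p : J × J, q μ (u (Sum.inr p) n + v (Sum.inr p)) =
        2⁻¹ * q μ (h p.1 ∘ S p.1 n + h p.2 ∘ S p.2 n) := by
      intro p
      show q μ (c • (h p.1 ∘ V p.1 p.2 n) + c • h p.2) = _
      rw [← smul_add, q_smul, hc2]
      congr 1
      have g1 : h p.1 ∘ V p.1 p.2 n + h p.2 ∈ H :=
        H.add_mem ((hV _ _ _).st _ (hh _)) (hh _)
      rw [← q_comp (hS p.2 n).mp (hH.meas _ g1)]
      congr 1
      have g2 : (V p.1 p.2 n * S p.2 n : Equiv.Perm X) = S p.1 n := by
        show (S p.2 n)⁻¹ * S p.1 n * S p.2 n = S p.1 n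
        rw [mul_assoc, (hc p.1 p.2 n n).eq, ← mul_assoc, inv_mul_cancel, one_mul]
      ext x
      simp only [Function.comp_apply, Pi.add_apply]
      rw [← Equiv.Perm.mul_apply, g2]
    simp only [f1, f2]
    rw [← Finset.sum_add_distrib, Fintype.sum_prod_type]
    apply Finset.sum_congr rfl
    intro j _
    apply Finset.sum_congr rfl
    intro k _
    have g4 := hH.q_par ((hS j n).st _ (hh j)) ((hS k n).st _ (hh k))
    rw [q_comp (hS j n).mp (hH.meas _ (hh j)), q_comp (hS k n).mp (hH.meas _ (hh k))]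
      at g4
    rw [← mul_add]
    linarith

end Pool.Agent.Zk59.PE
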