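import Pool.Agent.Zk89.PE.Defs
import Pool.Agent.Zk59.PE.GAcore

set_option autoImplicit false

open Finset Filter Topology MeasureTheory

namespace Pool.Agent.Zk59.PE

theorem thmGA : Pool.Agent.Zk89.PE.S_GA := by
  intro G _ k W hW X _ μ _ H hH J S hS hc h hh
  exact conv_expG hH (W := W) (fun hΨ F hF hb => hW hΨ F hF hb) hS hc hh

end Pool.Agent.Zk59.PE
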